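import Pool.Agent.Lib.MP_bc0e65_co.Five

/-!
Misere quotients with elements of period 5 and of period 8.
-/

namespace Pool.Agent.Results.MP_bc0e65_co.PeriodsFiveEight

open Pool.Agent.Lib.MP_bc0e65_co

theorem result :
    (∃ (A : ClosedSet) (x : MisereQuotient A), HasPeriod x 5) ∧
    (∃ (A : ClosedSet) (x : MisereQuotient A), HasPeriod x 8) :=
  ⟨⟨_, _, ten_period⟩, ⟨_, _, eight_period⟩⟩

end Pool.Agent.Results.MP_bc0e65_co.PeriodsFiveEight
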